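import Pool.Agent.Y489.PH.Stm
import Pool.Agent.Y485.HS.Loc

/-!
# PH-AV: averages are pointwise Lipschitz off a countable set
-/

set_option autoImplicit false

open MeasureTheory Set Metric Filter Topology
open scoped ENNReal NNReal

noncomputable section

namespace Pool.Agent.Y273.PH

open Pool.Agent.Y485.HS Pool.Agent.Y489.PH

section

variable {n : ℕ} {K : Type} [Group K] [TopologicalSpace K] [IsTopologicalGroup K]
  [CompactSpace K]

/-- the average is Lipschitz at the points where the maps are uniformly Lipschitz -/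
lemma pl_of_upl [T2Space K] [MeasurableSpace K] [BorelSpace K] (μ : Measure K)
    [IsProbabilityMeasure μ] {T : K → E n → E n} (hT : LocAct n K T) {x : E n} (hx : x ∈ BB n)
    (h : UPL T univ x) : PL (fun x => ∫ k, T k⁻¹ x ∂μ) x := by
  obtain ⟨N, δ, hδ, h⟩ := h
  have hint : ∀ x ∈ BB n, Integrable (fun k => T k⁻¹ x) μ := fun x hx =>
    ((hT.cont_left hx).comp continuous_inv).integrable_of_hasCompactSupport
      (HasCompactSupport.of_compactSpace _)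
  refine ⟨N, δ, hδ, fun z hz hzx => ?_⟩
  show dist (∫ k, T k⁻¹ z ∂μ) (∫ k, T k⁻¹ x ∂μ) ≤ _
  rw [dist_eq_norm, ← integral_sub (hint z hz) (hint x hx)]
  have h2 := norm_integral_le_of_norm_le_const (μ := μ) (f := fun k => T k⁻¹ z - T k⁻¹ x)
    (C := N * dist z x) (Eventually.of_forall fun k => by
      have := h k⁻¹ (mem_univ _) z hz hzx
      rwa [dist_eq_norm (T k⁻¹ z)] at this)
  simpa using h2

/-- points near which an open subgroup acts trivially -/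
lemma upl_of_triv {T : K → E n → E n} (hT : LocAct n K T) (hP : ∀ k, PLoc (T k))
    {K0 : Subgroup K} (hK0 : IsOpen (K0 : Set K)) {V : Set (E n)}
    (hV : ∀ x ∈ V, ∀ᶠ z in 𝓝 x, ∀ k ∈ K0, T k z = z) :
    {x | x ∈ V ∧ x ∈ ball (0 : E n) 4 ∧ ¬ UPL T univ x}.Countable := by
  have hfin : Finite (K ⧸ K0) := Subgroup.quotient_finite_of_isOpen K0 hK0
  have hc : (⋃ q : K ⧸ K0, {x : E n | x ∈ ball (0 : E n) 4 ∧ ¬ PL (T q.out) x}).Countable :=
    countable_iUnion fun q => hP q.out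
  refine hc.mono ?_
  rintro x ⟨hxV, hxb, hxn⟩
  by_contra hcon
  apply hxn
  simp only [mem_iUnion, mem_setOf_eq, not_exists, not_and, not_not] at hcon
  have h1 : ∀ q : K ⧸ K0, ∃ N : ℝ, ∀ᶠ z in 𝓝 x, z ∈ BB n →
      dist (T q.out z) (T q.out x) ≤ N * dist z x := by
    intro q
    obtain ⟨N, δ, hδ, hN⟩ := hcon q hxb
    refine ⟨N, ?_⟩
    filter_upwards [ball_mem_nhds x hδ] with z hz hzB
    exact hN z hzB hz
  choose N hN using h1
  have hfi := Fintype.ofFinite (K ⧸ K0)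
  have h2 : ∀ᶠ z in 𝓝 x, ∀ q : K ⧸ K0, z ∈ BB n →
      dist (T q.out z) (T q.out x) ≤ N q * dist z x := eventually_all.2 hN
  obtain ⟨δ, hδ, hb⟩ := Metric.eventually_nhds_iff_ball.1 (h2.and (hV x hxV))
  refine ⟨∑ q, |N q|, δ, hδ, fun k _ z hzB hzx => ?_⟩
  obtain ⟨hz1, hz2⟩ := hb z hzx
  have hxB : x ∈ BB n := ball_subset_closedBall hxb
  obtain ⟨κ, hκ⟩ := QuotientGroup.mk_out_eq_mul K0 k
  have hk : k = (k : K ⧸ K0).out * (κ : K)⁻¹ := by
    rw [hκ]
    group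
  have hκ' : (κ : K)⁻¹ ∈ K0 := K0.inv_mem κ.2
  have key : ∀ w, w ∈ BB n → w ∈ ball x δ → T k w = T (k : K ⧸ K0).out w := by
    intro w hw hwx
    have h3 := (hb w hwx).2 _ hκ'
    calc T k w = T ((k : K ⧸ K0).out * (κ : K)⁻¹) w := by rw [← hk]
      _ = T (k : K ⧸ K0).out (T (κ : K)⁻¹ w) := hT.mul _ _ w hw (by rw [h3]; exact hw)
      _ = T (k : K ⧸ K0).out w := by rw [h3]
  rw [key z hzB hzx, key x hxB (mem_ball_self hδ)]
  refine (hz1 _ hzB).trans (mul_le_mul_of_nonneg_right ?_ dist_nonneg)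
  exact (le_abs_self _).trans
    (Finset.single_le_sum (f := fun q => |N q|) (fun q _ => abs_nonneg _) (Finset.mem_univ _))

end

theorem t_AV : S_AV := by
  intro n K _ _ _ _ _ _ _ μ _ T hT hP Z hZ hZT
  obtain ⟨W, hW⟩ : ∃ W : Set (E n), W = {x | x ∈ ball (0 : E n) 4 ∧ Triv T x} := ⟨_, rfl⟩
  have h1 : ∀ x : E n, ∃ (K0 : Subgroup K) (V : Set (E n)), IsOpen (K0 : Set K) ∧
      (∀ z ∈ V, ∀ᶠ z in 𝓝 z, ∀ k ∈ K0, T k z = z) ∧ (x ∈ W → V ∈ 𝓝 x) := by
    intro x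
    by_cases hx : x ∈ W
    · have hx' := hx
      rw [hW] at hx'
      obtain ⟨-, K0, hK0, hz⟩ := hx'
      exact ⟨K0, {z | ∀ᶠ z in 𝓝 z, ∀ k ∈ K0, T k z = z}, hK0, fun z hz => hz,
        fun _ => eventually_eventually_nhds.2 hz⟩
    · exact ⟨⊤, ∅, isOpen_univ, fun z hz => absurd hz (notMem_empty z), fun h => absurd h hx⟩
  choose K0 V hK0 hV hVW using h1
  obtain ⟨t, htW, htc, hcov⟩ := TopologicalSpace.countable_cover_nhdsWithin (f := V) (s := W)
    (fun x hx => mem_nhdsWithin_of_mem_nhds (hVW x hx))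
  have h2 : (Z ∪ ⋃ x ∈ t, {z | z ∈ V x ∧ z ∈ ball (0 : E n) 4 ∧ ¬ UPL T univ z}).Countable :=
    hZ.union (htc.biUnion fun x _ => upl_of_triv hT hP (hK0 x) (hV x))
  refine h2.mono ?_
  rintro x ⟨hxb, hxn⟩
  have hxB : x ∈ BB n := ball_subset_closedBall hxb
  have hxu : ¬ UPL T univ x := fun h => hxn (pl_of_upl μ hT hxB h)
  by_cases hxZ : x ∈ Z
  · exact Or.inl hxZ
  · refine Or.inr ?_
    have hxT : Triv T x := (hZT x hxb hxZ).resolve_right hxu
    have hxW : x ∈ W := by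
      rw [hW]
      exact ⟨hxb, hxT⟩
    obtain ⟨x0, hx0, hxV⟩ := mem_iUnion₂.1 (hcov hxW)
    exact mem_iUnion₂.2 ⟨x0, hx0, hxV, hxb, hxu⟩

end Pool.Agent.Y273.PH
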